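import Pool.Agent.H2R2.HP.Defs

set_option autoImplicit false

/-! ABOVE: the number of ways to split a block -/

namespace Pool.Agent.H2R2.HP

open Finset

/-- splitting off `X` from the block `B` -/
def ABOVE_Q {n : ℕ} (P : Finset (Finset (Fin n))) (B X : Finset (Fin n)) :
    Finset (Finset (Fin n)) := insert (B \ X) (insert X (P.erase B))

theorem ABOVE_sub {n : ℕ} {P : Finset (Finset (Fin n))}
    (hd : ∀ B ∈ P, ∀ C ∈ P, B ≠ C → Disjoint B C) {B Y : Finset (Fin n)} (hB : B ∈ P)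
    (hY : Y ⊆ B) (hne : Y.Nonempty) : Y ∉ P.erase B := by
  intro h
  rw [mem_erase] at h
  obtain ⟨v, hv⟩ := hne
  exact (Finset.disjoint_left.1 (hd Y h.2 B hB h.1)) hv (hY hv)

theorem ABOVE_mem {n m : ℕ} {E : Finset (Finset (Fin n))} {P : Finset (Finset (Fin n))}
    (hP : P ∈ SP E m) {B X : Finset (Fin n)} (hB : B ∈ P) (hX : X ⊆ B) (hXn : X.Nonempty)
    {b : Fin n} (hb : b ∈ B) (hbX : b ∉ X) :
    ABOVE_Q P B X ∈ SP E (m + 1) ∧ Split P (ABOVE_Q P B X) := by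
  classical
  unfold SP at hP ⊢
  rw [mem_filter] at hP ⊢
  obtain ⟨_, h1, h2, h3, h4, h5⟩ := hP
  have hbd : b ∈ B \ X := mem_sdiff.2 ⟨hb, hbX⟩
  have hXe : X ∉ P.erase B := ABOVE_sub h3 hB hX hXn
  have hBXe : B \ X ∉ P.erase B := ABOVE_sub h3 hB sdiff_subset ⟨b, hbd⟩
  have hne : B \ X ≠ X := by
    intro h
    rw [h] at hbd
    exact hbX hbd
  have hBXi : B \ X ∉ insert X (P.erase B) := by
    rw [mem_insert]
    rintro (h | h)
    · exact hne h
    · exact hBXe h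
  have hmQ : ∀ C, C ∈ ABOVE_Q P B X ↔ C = B \ X ∨ C = X ∨ C ∈ P.erase B := by
    intro C
    unfold ABOVE_Q
    rw [mem_insert, mem_insert]
  refine ⟨⟨mem_univ _, ?_, ?_, ?_, ?_, ?_⟩, ?_⟩
  · unfold ABOVE_Q
    rw [card_insert_of_notMem hBXi, card_insert_of_notMem hXe, card_erase_of_mem hB, h1]
    have : 0 < P.card := card_pos.2 ⟨B, hB⟩
    omega
  · intro C hC
    rw [hmQ] at hC
    rcases hC with rfl | rfl | hC
    · exact ⟨b, hbd⟩
    · exact hXn
    · exact h2 C (mem_of_mem_erase hC)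
  · have hDB : ∀ C ∈ P.erase B, Disjoint B C := fun C hC =>
      h3 B hB C (mem_of_mem_erase hC) (ne_of_mem_erase hC).symm
    intro C hC D hD hCD
    rw [hmQ] at hC hD
    rcases hC with rfl | rfl | hC <;> rcases hD with rfl | rfl | hD
    · exact absurd rfl hCD
    · exact disjoint_sdiff_self_left
    · exact (hDB D hD).mono_left sdiff_subset
    · exact disjoint_sdiff_self_right
    · exact absurd rfl hCD
    · exact (hDB D hD).mono_left hX
    · exact ((hDB C hC).mono_left sdiff_subset).symm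
    · exact ((hDB C hC).mono_left hX).symm
    · exact h3 C (mem_of_mem_erase hC) D (mem_of_mem_erase hD) hCD
  · intro v
    obtain ⟨C, hC, hv⟩ := h4 v
    by_cases hCB : C = B
    · subst hCB
      by_cases hvX : v ∈ X
      · exact ⟨X, (hmQ _).2 (Or.inr (Or.inl rfl)), hvX⟩
      · exact ⟨C \ X, (hmQ _).2 (Or.inl rfl), mem_sdiff.2 ⟨hv, hvX⟩⟩
    · exact ⟨C, (hmQ _).2 (Or.inr (Or.inr (mem_erase.2 ⟨hCB, hC⟩))), hv⟩
  · intro C hC e he hle
    rw [hmQ] at hC
    rcases hC with rfl | rfl | hC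
    · exact h5 B hB e he (hle.trans sdiff_subset)
    · exact h5 B hB e he (hle.trans hX)
    · exact h5 C (mem_of_mem_erase hC) e he hle
  · refine ⟨B, hB, B \ X, sdiff_subset, ⟨b, hbd⟩, ?_, ?_⟩
    · rw [Finset.sdiff_sdiff_eq_self hX]
      exact hXn
    · rw [Finset.sdiff_sdiff_eq_self hX]
      rfl

theorem ABOVE_notMem {n : ℕ} {P : Finset (Finset (Fin n))} {B X : Finset (Fin n)}
    (hX : X ⊆ B) (hXn : X.Nonempty) {b : Fin n} (hb : b ∈ B) (hbX : b ∉ X) :
    B ∉ ABOVE_Q P B X := by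
  unfold ABOVE_Q
  rw [mem_insert, mem_insert]
  rintro (h | h | h)
  · obtain ⟨v, hv⟩ := hXn
    have h1 : v ∈ B := hX hv
    rw [h] at h1
    exact (mem_sdiff.1 h1).2 hv
  · rw [h] at hb
    exact hbX hb
  · exact (notMem_erase B P) h

open Classical in
/-- the possible parts -/
noncomputable def ABOVE_S {n : ℕ} (B : Finset (Fin n)) : Finset (Finset (Fin n)) :=
  if h : B.Nonempty then ((B.erase (B.min' h)).powerset.erase ∅) else ∅

theorem ABOVE_S_mem {n : ℕ} {B X : Finset (Fin n)} (hB : B.Nonempty) (h : X ∈ ABOVE_S B) :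
    X ⊆ B ∧ X.Nonempty ∧ B.min' hB ∉ X := by
  unfold ABOVE_S at h
  rw [dif_pos hB, mem_erase, mem_powerset] at h
  refine ⟨h.2.trans (erase_subset _ _), nonempty_iff_ne_empty.2 h.1, fun h1 => ?_⟩
  exact (notMem_erase _ _) (h.2 h1)

theorem ABOVE_S_card {n : ℕ} {B : Finset (Fin n)} (hB : B.Nonempty) :
    (ABOVE_S B).card = 2 ^ (B.card - 1) - 1 := by
  unfold ABOVE_S
  rw [dif_pos hB, card_erase_of_mem (empty_mem_powerset _), card_powerset,
    card_erase_of_mem (min'_mem B hB)]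

theorem t_ABOVE : S_ABOVE := by
  classical
  intro n m E P hP
  have hP' := hP
  unfold SP at hP'
  rw [mem_filter] at hP'
  obtain ⟨_, h1, h2, h3, h4, h5⟩ := hP'
  have hcard : ∑ B ∈ P, (2 ^ (B.card - 1) - 1) = (P.sigma (fun B => ABOVE_S B)).card := by
    rw [card_sigma]
    exact sum_congr rfl fun B hB => (ABOVE_S_card (h2 B hB)).symm
  rw [hcard]
  refine card_le_card_of_injOn (fun p => ABOVE_Q P p.1 p.2) ?_ ?_
  · rintro ⟨B, X⟩ hp
    have hp' := mem_sigma.1 (mem_coe.1 hp)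
    obtain ⟨hB, hX⟩ := hp'
    have h6 := ABOVE_S_mem (h2 B hB) hX
    have h7 := ABOVE_mem hP hB h6.1 h6.2.1 (min'_mem B (h2 B hB)) h6.2.2
    exact mem_coe.2 (mem_filter.2 ⟨h7.1, h7.2⟩)
  · rintro ⟨B, X⟩ hp ⟨B', X'⟩ hp' heq
    obtain ⟨hB, hX⟩ := mem_sigma.1 (mem_coe.1 hp)
    obtain ⟨hB', hX'⟩ := mem_sigma.1 (mem_coe.1 hp')
    change B ∈ P at hB
    change X ∈ ABOVE_S B at hX
    change B' ∈ P at hB'
    change X' ∈ ABOVE_S B' at hX'
    change ABOVE_Q P B X = ABOVE_Q P B' X' at heq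
    have h6 := ABOVE_S_mem (h2 B hB) hX
    have h6' := ABOVE_S_mem (h2 B' hB') hX'
    have h7 := ABOVE_notMem (P := P) h6'.1 h6'.2.1 (min'_mem B' (h2 B' hB')) h6'.2.2
    have hBB : B = B' := by
      by_contra hne
      apply h7
      rw [← heq]
      unfold ABOVE_Q
      rw [mem_insert, mem_insert]
      exact Or.inr (Or.inr (mem_erase.2 ⟨fun h => hne h.symm, hB'⟩))
    subst hBB
    have h8 : X ∈ ABOVE_Q P B X' := by
      rw [← heq]
      unfold ABOVE_Q
      rw [mem_insert, mem_insert]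
      exact Or.inr (Or.inl rfl)
    unfold ABOVE_Q at h8
    rw [mem_insert, mem_insert] at h8
    rcases h8 with h8 | h8 | h8
    · exfalso
      apply h6.2.2
      rw [h8, mem_sdiff]
      exact ⟨min'_mem B (h2 B hB), h6'.2.2⟩
    · rw [h8]
    · exact absurd h8 (ABOVE_sub h3 hB h6.1 h6.2.1)

end Pool.Agent.H2R2.HP
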