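import Pool.Agent.H2R2.HP.Defs

set_option autoImplicit false

namespace Pool.Agent.H2R2.HP

open Finset

open Classical in
theorem BELOW_sub {n m : ℕ} {E Q : Finset (Finset (Fin n))} :
    (SP E m).filter (fun P => Split P Q) ⊆
      (Q.powersetCard 2).image (fun S => insert (S.sup id) (Q \ S)) := by
  intro P hP
  rw [mem_filter] at hP
  obtain ⟨hP, B, hB, B1, h1, h2, h3, hQe⟩ := hP
  obtain ⟨_, _, hPd, _, _⟩ := (mem_filter.1 hP).2
  have hno : ∀ C : Finset (Fin n), C ⊆ B → C.Nonempty → C ∉ P.erase B := by
    intro C hCB hC h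
    obtain ⟨hne', hm⟩ := mem_erase.1 h
    have hdis := hPd C hm B hB hne'
    obtain ⟨x, hx⟩ := hC
    exact (Finset.disjoint_left.1 hdis hx) (hCB hx)
  have h1n := hno B1 h1 h2
  have h2n := hno (B \ B1) sdiff_subset h3
  have hne : B1 ≠ B \ B1 := by
    intro h
    obtain ⟨x, hx⟩ := h2
    have hx' : x ∈ B \ B1 := by rw [← h]; exact hx
    exact (mem_sdiff.1 hx').2 hx
  refine mem_image.2 ⟨{B1, B \ B1}, mem_powersetCard.2 ⟨?_, card_pair hne⟩, ?_⟩
  · intro C hC
    rw [hQe]
    rw [mem_insert, mem_singleton] at hC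
    rcases hC with rfl | rfl
    · exact mem_insert_self _ _
    · exact mem_insert_of_mem (mem_insert_self _ _)
  · have hs : ({B1, B \ B1} : Finset (Finset (Fin n))).sup id = B := by
      rw [sup_insert, sup_singleton]
      simp only [id]
      exact union_sdiff_of_subset h1
    have hd : Q \ {B1, B \ B1} = P.erase B := by
      rw [hQe]
      ext C
      rw [mem_sdiff, mem_insert, mem_insert, mem_insert, mem_singleton]
      constructor
      · rintro ⟨h4 | h4 | h4, h5⟩
        · exact absurd (Or.inl h4) h5
        · exact absurd (Or.inr h4) h5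
        · exact h4
      · intro h4
        refine ⟨Or.inr (Or.inr h4), ?_⟩
        rintro (h5 | h5)
        · rw [h5] at h4; exact h1n h4
        · rw [h5] at h4; exact h2n h4
    show insert (({B1, B \ B1} : Finset (Finset (Fin n))).sup id) (Q \ {B1, B \ B1}) = P
    rw [hs, hd, insert_erase hB]

open Classical in
theorem t_BELOW : S_BELOW := by
  intro n m E Q hQ
  have hc : Q.card = m + 1 := (mem_filter.1 hQ).2.1
  calc ((SP E m).filter (fun P => Split P Q)).card
      ≤ ((Q.powersetCard 2).image (fun S => insert (S.sup id) (Q \ S))).card :=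
        card_le_card BELOW_sub
    _ ≤ (Q.powersetCard 2).card := card_image_le
    _ = (m + 1).choose 2 := by rw [card_powersetCard, hc]

end Pool.Agent.H2R2.HP
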