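import Mathlib

set_option autoImplicit false

/-!
# Partitions into stable blocks of a hypergraph: statements
-/

namespace Pool.Agent.H2R2.HP

open Finset

open Classical in
/-- partitions of `Fin n` into `m` nonempty blocks, none of which contains an edge -/
noncomputable def SP {n : ℕ} (E : Finset (Finset (Fin n))) (m : ℕ) :
    Finset (Finset (Finset (Fin n))) :=
  univ.filter (fun P =>
    P.card = m ∧
    (∀ B ∈ P, B.Nonempty) ∧
    (∀ B ∈ P, ∀ C ∈ P, B ≠ C → Disjoint B C) ∧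
    (∀ v : Fin n, ∃ B ∈ P, v ∈ B) ∧
    (∀ B ∈ P, ∀ e ∈ E, ¬ e ⊆ B))

/-- `Q` is obtained from `P` by splitting one block into two nonempty blocks -/
def Split {n : ℕ} (P Q : Finset (Finset (Fin n))) : Prop :=
  ∃ B ∈ P, ∃ B1 : Finset (Fin n), B1 ⊆ B ∧ B1.Nonempty ∧ (B \ B1).Nonempty ∧
    Q = insert B1 (insert (B \ B1) (P.erase B))

open Classical in
/-- ABOVE -/
def S_ABOVE : Prop := ∀ (n m : ℕ) (E : Finset (Finset (Fin n))) (P : Finset (Finset (Fin n))),
  P ∈ SP E m → ∑ B ∈ P, (2 ^ (B.card - 1) - 1) ≤ ((SP E (m + 1)).filter (fun Q => Split P Q)).card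

open Classical in
/-- BELOW -/
def S_BELOW : Prop := ∀ (n m : ℕ) (E : Finset (Finset (Fin n))) (Q : Finset (Finset (Fin n))),
  Q ∈ SP E (m + 1) → ((SP E m).filter (fun P => Split P Q)).card ≤ (m + 1).choose 2

/-- SUM -/
def S_SUM : Prop := ∀ (n m s : ℕ) (E : Finset (Finset (Fin n))) (P : Finset (Finset (Fin n))),
  P ∈ SP E m → 2 ≤ s → m * s ≤ n → m * (2 ^ (s - 1) - 1) ≤ ∑ B ∈ P, (2 ^ (B.card - 1) - 1)

end Pool.Agent.H2R2.HP
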