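import Pool.Agent.H2R2.HP.Defs

set_option autoImplicit false

namespace Pool.Agent.H2R2.HP

open Finset

theorem FIN_core (hA : S_ABOVE) (hB : S_BELOW) (hS : S_SUM) {n m s : ℕ}
    (E : Finset (Finset (Fin n))) (hm : 1 ≤ m) (hms : m * s ≤ n) (h2 : m + 3 ≤ 2 ^ s) :
    (SP E m).card ≤ (SP E (m + 1)).card := by
  classical
  have hs : 2 ≤ s := by
    by_contra hcon
    have : s ≤ 1 := by omega
    have h3 : 2 ^ s ≤ 2 ^ 1 := Nat.pow_le_pow_right (by norm_num) this
    omega
  have hnum : (m + 1).choose 2 ≤ m * (2 ^ (s - 1) - 1) := by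
    have h4 : 2 ^ s = 2 * 2 ^ (s - 1) := by
      rw [← pow_succ']; congr 1; omega
    rw [Nat.choose_two_right, Nat.add_sub_cancel]
    have h5 : (m + 1) * m / 2 ≤ (2 * (2 ^ (s - 1) - 1)) * m / 2 :=
      Nat.div_le_div_right (Nat.mul_le_mul_right _ (by omega))
    refine h5.trans (le_of_eq ?_)
    rw [Nat.mul_assoc, Nat.mul_div_cancel_left _ (by norm_num : 0 < 2), Nat.mul_comm]
  have hpos : 0 < (m + 1).choose 2 := Nat.choose_pos (by omega)
  have h := Finset.card_mul_le_card_mul
    (r := fun (P Q : Finset (Finset (Fin n))) => Split P Q)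
    (s := SP E m) (t := SP E (m + 1)) (m := (m + 1).choose 2) (n := (m + 1).choose 2)
    (by
      intro P hP
      have h1 := hA n m E P hP
      have h3 := hS n m s E P hP hs hms
      unfold Finset.bipartiteAbove
      refine (hnum.trans (h3.trans h1)).trans (le_of_eq ?_)
      congr)
    (by
      intro Q hQ
      have h1 := hB n m E Q hQ
      unfold Finset.bipartiteBelow
      convert h1)
  exact Nat.le_of_mul_le_mul_right h hpos

theorem FIN_ncard {n : ℕ} (E : Finset (Finset (Fin n))) (m : ℕ) :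
    Set.ncard {P : Finset (Finset (Fin n)) |
          P.card = m ∧
          (∀ B ∈ P, B.Nonempty) ∧
          (∀ B ∈ P, ∀ C ∈ P, B ≠ C → Disjoint B C) ∧
          (∀ v : Fin n, ∃ B ∈ P, v ∈ B) ∧
          (∀ B ∈ P, ∀ e ∈ E, ¬ e ⊆ B)} = (SP E m).card := by
  classical
  rw [← Set.ncard_coe_finset]
  congr 1
  ext P
  unfold SP
  simp only [coe_filter, mem_univ, true_and]

end Pool.Agent.H2R2.HP
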