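import Pool.Agent.H2R2.HP.Defs

set_option autoImplicit false

namespace Pool.Agent.H2R2.HP

open Finset

theorem SUM_tangent (t d : ℕ) : (d + 1) * 2 ^ t ≤ 2 ^ d + t * 2 ^ t := by
  rcases Nat.lt_or_ge d t with h | h
  · exact (Nat.mul_le_mul_right _ h).trans (Nat.le_add_left _ _)
  · obtain ⟨r, rfl⟩ := Nat.exists_eq_add_of_le h
    have h1 : r + 1 ≤ 2 ^ r := Nat.lt_two_pow_self
    calc (t + r + 1) * 2 ^ t = (r + 1) * 2 ^ t + t * 2 ^ t := by ring
      _ ≤ 2 ^ r * 2 ^ t + t * 2 ^ t := by gcongr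
      _ = 2 ^ (t + r) + t * 2 ^ t := by rw [pow_add]; ring

theorem SUM_card {n m : ℕ} {E : Finset (Finset (Fin n))} {P : Finset (Finset (Fin n))}
    (hP : P ∈ SP E m) : ∑ B ∈ P, B.card = n := by
  classical
  unfold SP at hP
  obtain ⟨-, -, -, hd, hc, -⟩ := mem_filter.1 hP
  have h1 : P.biUnion id = univ := by
    ext v
    simp only [mem_biUnion, id, mem_univ, iff_true]
    obtain ⟨B, hB, hv⟩ := hc v
    exact ⟨B, hB, hv⟩
  have h2 := Finset.card_biUnion (s := P) (t := id) (fun B hB C hC hBC => hd B hB C hC hBC)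
  rw [h1, card_univ, Fintype.card_fin] at h2
  simpa using h2.symm

theorem t_SUM : S_SUM := by
  classical
  intro n m s E P hP hs hn
  have hcard := SUM_card hP
  unfold SP at hP
  obtain ⟨-, hm, hne, -, -, -⟩ := mem_filter.1 hP
  obtain ⟨t, rfl⟩ := Nat.exists_eq_add_of_le' hs
  have h1 : ∑ B ∈ P, B.card * 2 ^ t ≤ ∑ B ∈ P, (2 ^ (B.card - 1) + t * 2 ^ t) := by
    apply Finset.sum_le_sum
    intro B hB
    have hpos := (hne B hB).card_pos
    have := SUM_tangent t (B.card - 1)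
    rwa [Nat.sub_add_cancel hpos] at this
  rw [← Finset.sum_mul, hcard, Finset.sum_add_distrib, Finset.sum_const, hm, smul_eq_mul] at h1
  have h2 : ∑ B ∈ P, (2 ^ (B.card - 1) - 1) + m = ∑ B ∈ P, 2 ^ (B.card - 1) := by
    rw [← hm, Finset.card_eq_sum_ones, ← Finset.sum_add_distrib]
    apply Finset.sum_congr rfl
    intro B _
    exact Nat.sub_add_cancel Nat.one_le_two_pow
  have h3 : m * (t + 2) * 2 ^ t ≤ n * 2 ^ t := Nat.mul_le_mul_right _ hn
  have h4 : m * 2 ^ (t + 1) ≤ ∑ B ∈ P, 2 ^ (B.card - 1) := by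
    have h5 : m * (t + 2) * 2 ^ t = m * 2 ^ (t + 1) + m * (t * 2 ^ t) := by
      rw [pow_succ]; ring
    omega
  have h6 : m * (2 ^ (t + 2 - 1) - 1) + m = m * 2 ^ (t + 1) := by
    have h7 : t + 2 - 1 = t + 1 := by omega
    rw [h7, Nat.mul_sub, mul_one]
    exact Nat.sub_add_cancel (Nat.le_mul_of_pos_right _ (by positivity))
  omega

end Pool.Agent.H2R2.HP
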